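import Pool.Agent.Run7.h135.XK.Stm

/-!
# Project XK (helper135), piece FQ: the rational points of `y² = x (x - 9) (x - 25)`

Descent by hand: a point different from the eight known ones gives `α, β, γ ∈ ℚ` with `α² - 9 = β²`, `α² - 25 = γ²`, `γ ≠ 0`
(the square roots of `x (2 P) - e`). One of the points `Q` with `2 Q = (α², ..)` or `2 Q = (α², ..) + (25, 0)` is again a
double, and the numerator of `α` decreases, except for numerators `≤ 38`.
-/

set_option autoImplicit false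

open WithZero

namespace Pool.Agent.Run7.h437.XK

open Run7.h135.XK

lemma sqf {b : ℚ} (hb : b ≠ 0) : ∃ (a : ℤ) (u : ℚ), Squarefree a.natAbs ∧ a ≠ 0 ∧ u ≠ 0 ∧
    b = a * u ^ 2 := by
  have hn : b.num ≠ 0 := Rat.num_ne_zero.mpr hb
  have hd : (b.den : ℤ) ≠ 0 := by exact_mod_cast b.den_nz
  have hdq : (b.den : ℚ) ≠ 0 := by exact_mod_cast b.den_nz
  obtain ⟨t, s, hst, ht⟩ := Nat.sq_mul_squarefree (b.num * b.den).natAbs
  have hz : b.num * b.den ≠ 0 := mul_ne_zero hn hd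
  have hs0 : s ≠ 0 := by
    rintro rfl
    rw [zero_pow two_ne_zero, zero_mul] at hst
    exact hz (Int.natAbs_eq_zero.mp hst.symm)
  have hsq : (s : ℚ) ≠ 0 := by exact_mod_cast hs0
  have ht0 : t ≠ 0 := ht.ne_zero
  have hbq : b * b.den ^ 2 = (b.num * b.den : ℤ) := by
    have := Rat.mul_den_eq_num b
    push_cast
    rw [sq, ← mul_assoc, this]
  rcases Int.natAbs_eq (b.num * b.den) with h | h
  · refine ⟨t, (s : ℚ) / b.den, by simpa using ht, by exact_mod_cast ht0,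
      div_ne_zero hsq hdq, ?_⟩
    rw [h, ← hst] at hbq
    push_cast at hbq
    field_simp
    rw [hbq]
    push_cast
    ring
  · refine ⟨-t, (s : ℚ) / b.den, by simpa using ht, by simpa using ht0,
      div_ne_zero hsq hdq, ?_⟩
    rw [h, ← hst] at hbq
    push_cast at hbq
    push_cast
    field_simp
    rw [hbq]
    ring

lemma val_self (p : ℕ) [Fact p.Prime] : Rat.padicValuation p (p : ℚ) = exp (-1 : ℤ) :=
  Rat.padicValuation_self p

lemma three_sq [Fact (Nat.Prime 3)] (t : ℚ) : ¬ Rat.padicValuation 3 (t ^ 2 + 1) < 1 := by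
  intro h
  have hm := Rat.mul_den_eq_num t
  have e : ((t.num ^ 2 + (t.den : ℤ) ^ 2 : ℤ) : ℚ) = (t ^ 2 + 1) * (((t.den : ℤ)) : ℚ) ^ 2 := by
    push_cast
    rw [← hm]
    ring
  have h1 : Rat.padicValuation 3 ((t.num ^ 2 + (t.den : ℤ) ^ 2 : ℤ) : ℚ) < 1 := by
    rw [e, map_mul, map_pow]
    have h2 : Rat.padicValuation 3 (((t.den : ℤ)) : ℚ) ≤ 1 := by
      rw [Rat.padicValuation_cast]
      exact Int.padicValuation_le_one 3 _
    calc Rat.padicValuation 3 (t ^ 2 + 1) * Rat.padicValuation 3 (((t.den : ℤ)) : ℚ) ^ 2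
        ≤ Rat.padicValuation 3 (t ^ 2 + 1) * 1 := mul_le_mul_right (pow_le_one₀ zero_le h2) _
      _ < 1 := by rwa [mul_one]
  rw [Rat.padicValuation_cast, Int.padicValuation_lt_one_iff] at h1
  push_cast at h1
  have h3 : t.num % 3 = 0 ∧ (t.den : ℤ) % 3 = 0 := by
    have h4 : (t.num ^ 2 + (t.den : ℤ) ^ 2) % 3 = 0 := Int.emod_eq_zero_of_dvd h1
    rcases (by omega : t.num % 3 = 0 ∨ t.num % 3 = 1 ∨ t.num % 3 = 2) with q | q | q <;>
    rcases (by omega : (t.den : ℤ) % 3 = 0 ∨ (t.den : ℤ) % 3 = 1 ∨ (t.den : ℤ) % 3 = 2)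
      with r | r | r <;>
    simp [sq, Int.add_emod, Int.mul_emod, q, r] at h4 ⊢
  have h5 : 3 ∣ t.num.natAbs := Int.natCast_dvd.mp (Int.dvd_of_emod_eq_zero h3.1)
  have h6 : 3 ∣ t.den := by
    have := Int.dvd_of_emod_eq_zero h3.2
    exact_mod_cast this
  have h7 := Nat.dvd_gcd h5 h6
  rw [t.reduced] at h7
  omega

/-- The classes of the points. -/
lemma classes (h2 : S_N2) (h3 : S_N3) (h5 : S_N5) (hP : S_NP) {X Y : ℚ} (hX : X ≠ 0)
    (hX9 : X - 9 ≠ 0) (hX25 : X - 25 ≠ 0) (hY : Y ^ 2 = X * (X - 9) * (X - 25)) :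
    ∃ (a b : ℤ) (u v w : ℚ), (a = 1 ∨ a = 5) ∧ (b = 1 ∨ b = -1) ∧ u ≠ 0 ∧ X = a * u ^ 2 ∧
      X - 9 = b * v ^ 2 ∧ X - 25 = a * b * w ^ 2 := by
  obtain ⟨a, u, hsa, ha, hu, hau⟩ := sqf hX
  obtain ⟨b, v, hsb, hb, hv, hbv⟩ := sqf hX9
  have haq : (a : ℚ) ≠ 0 := by exact_mod_cast ha
  have hbq : (b : ℚ) ≠ 0 := by exact_mod_cast hb
  have hw : X - 25 = a * b * (Y / (a * b * u * v)) ^ 2 := by
    rw [div_pow, hY, hbv]
    have : X * (b * v ^ 2) * (X - 25) = (a * u ^ 2) * (b * v ^ 2) * (X - 25) := by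
      rw [← hau]
    rw [this]
    field_simp
  have hIm : Im ℚ 0 9 25 (a : ℚ) (b : ℚ) :=
    Or.inr ⟨X, u, v, Y / (a * b * u * v), by rw [sub_zero]; exact hau, hbv, hw⟩
  have : Fact (Nat.Prime 2) := ⟨Nat.prime_two⟩
  have : Fact (Nat.Prime 3) := ⟨Nat.prime_three⟩
  have : Fact (Nat.Prime 5) := ⟨Nat.prime_five⟩
  obtain ⟨ha4, hb2⟩ := h2 ℚ (Rat.padicValuation 2) (by exact_mod_cast val_self 2) a b hsa hsb hIm
  obtain ⟨ha3, hb3⟩ := h3 ℚ (Rat.padicValuation 3) (by exact_mod_cast val_self 3) three_sq a b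
    hsa hsb hIm
  have hb5 := h5 ℚ (Rat.padicValuation 5) (by exact_mod_cast val_self 5) a b hsa hsb hIm
  have hpp : ∀ p : ℕ, p.Prime → ((p : ℤ) ∣ a → p = 5) ∧ ¬ (p : ℤ) ∣ b := by
    intro p hp
    have : Fact p.Prime := ⟨hp⟩
    by_cases h30 : p ∣ 30
    · have h235 : p = 2 ∨ p = 3 ∨ p = 5 := by
        have h30' : p ∣ 2 * 3 * 5 := by simpa using h30
        rcases hp.dvd_mul.mp h30' with h | h
        · rcases hp.dvd_mul.mp h with h | h
          · exact Or.inl ((Nat.prime_dvd_prime_iff_eq hp Nat.prime_two).mp h)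
          · exact Or.inr (Or.inl ((Nat.prime_dvd_prime_iff_eq hp Nat.prime_three).mp h))
        · exact Or.inr (Or.inr ((Nat.prime_dvd_prime_iff_eq hp Nat.prime_five).mp h))
      rcases h235 with rfl | rfl | rfl
      · refine ⟨fun h => ?_, fun h => ?_⟩
        · push_cast at h; omega
        · push_cast at h; omega
      · exact ⟨fun h => absurd h ha3, hb3⟩
      · exact ⟨fun _ => rfl, hb5⟩
    · obtain ⟨q1, q2⟩ := hP ℚ (Rat.padicValuation p) p hp h30 (val_self p) a b hsa hsb hIm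
      exact ⟨fun h => absurd h q1, q2⟩
  have hb1 : b.natAbs = 1 := by
    by_contra hne
    obtain ⟨p, hp, hpb⟩ := Nat.exists_prime_and_dvd hne
    exact (hpp p hp).2 (Int.natCast_dvd.mpr hpb)
  have ha1 : a.natAbs = 1 ∨ a.natAbs = 5 := by
    have hsub : a.natAbs.primeFactors ⊆ {5} := by
      intro p hp
      rw [Nat.mem_primeFactors] at hp
      rw [Finset.mem_singleton]
      exact (hpp p hp.1).1 (Int.natCast_dvd.mpr hp.2.1)
    have hprod := Nat.prod_primeFactors_of_squarefree hsa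
    rcases Finset.subset_singleton_iff.mp hsub with h | h
    · rw [h, Finset.prod_empty] at hprod
      exact Or.inl hprod.symm
    · rw [h, Finset.prod_singleton] at hprod
      exact Or.inr hprod.symm
  refine ⟨a, b, u, v, Y / (a * b * u * v), ?_, ?_, hu, hau, hbv, hw⟩
  · rcases ha1 with h | h
    · left; omega
    · right; omega
  · omega

lemma five_nsq (t : ℚ) : t ^ 2 ≠ 5 := by
  intro h
  have h1 : IsSquare ((5 : ℤ) : ℚ) := ⟨t, by push_cast; rw [← h]; ring⟩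
  rw [Rat.isSquare_intCast_iff] at h1
  obtain ⟨r, hr⟩ := h1
  have h2 : r ≤ 2 := by nlinarith
  have h3 : -2 ≤ r := by nlinarith
  interval_cases r <;> omega

section

variable {α β γ : ℚ}

lemma ne_ab (h1 : α ^ 2 - 9 = β ^ 2) : α + β ≠ 0 := by
  intro h
  have : (α + β) * (α - β) = 9 := by linear_combination h1
  rw [h, zero_mul] at this
  norm_num at this

lemma ne_ac (h2 : α ^ 2 - 25 = γ ^ 2) : α + γ ≠ 0 := by
  intro h
  have : (α + γ) * (α - γ) = 25 := by linear_combination h2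
  rw [h, zero_mul] at this
  norm_num at this

lemma ne_bc (h1 : α ^ 2 - 9 = β ^ 2) (h2 : α ^ 2 - 25 = γ ^ 2) : β + γ ≠ 0 := by
  intro h
  have : (β + γ) * (β - γ) = 16 := by linear_combination h2 - h1
  rw [h, zero_mul] at this
  norm_num at this

/-- The classes of a half of the point `(α², ..)`. -/
lemma half_class (n2 : S_N2) (n3 : S_N3) (n5 : S_N5) (nP : S_NP) (h1 : α ^ 2 - 9 = β ^ 2)
    (h2 : α ^ 2 - 25 = γ ^ 2) :
    ∃ (a b : ℤ) (u v w : ℚ), (a = 1 ∨ a = 5) ∧ (b = 1 ∨ b = -1) ∧ u ≠ 0 ∧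
      (α + β) * (α + γ) = a * u ^ 2 ∧
      (α + β) * (α + γ) - 9 = b * v ^ 2 ∧ (α + β) * (α + γ) - 25 = a * b * w ^ 2 := by
  have e9 : (α + β) * (α + γ) - 9 = (α + β) * (β + γ) := by linear_combination h1
  have e25 : (α + β) * (α + γ) - 25 = (α + γ) * (β + γ) := by linear_combination h2
  refine classes n2 n3 n5 nP (X := (α + β) * (α + γ)) (Y := (α + β) * (α + γ) * (β + γ))
    (mul_ne_zero (ne_ab h1) (ne_ac h2)) ?_ ?_ ?_
  · rw [e9]
    exact mul_ne_zero (ne_ab h1) (ne_bc h1 h2)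
  · rw [e25]
    exact mul_ne_zero (ne_ac h2) (ne_bc h1 h2)
  · rw [e9, e25]
    ring

/-- If the half is in the right class, it is a double. -/
lemma step1 (n2 : S_N2) (n3 : S_N3) (n5 : S_N5) (nP : S_NP) (h1 : α ^ 2 - 9 = β ^ 2)
    (h2 : α ^ 2 - 25 = γ ^ 2) {k : ℚ} (hk : (α + β) * (α + γ) = k ^ 2) :
    ∃ ξ η ζ : ℚ, ξ ^ 2 - 9 = η ^ 2 ∧ ξ ^ 2 - 25 = ζ ^ 2 ∧ ζ ≠ 0 ∧ ξ ≠ 0 ∧
      (ξ ^ 4 - 225) ^ 2 = (2 * ξ * η * ζ) ^ 2 * α ^ 2 := by
  obtain ⟨a, b, u, v, w, ha, hb, hu, hau, hbv, hw⟩ := half_class n2 n3 n5 nP h1 h2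
  set X := (α + β) * (α + γ) with hX
  have hX0 : X ≠ 0 := mul_ne_zero (ne_ab h1) (ne_ac h2)
  have e9 : X - 9 = (α + β) * (β + γ) := by rw [hX]; linear_combination h1
  have e25 : X - 25 = (α + γ) * (β + γ) := by rw [hX]; linear_combination h2
  have eX : X ^ 2 - 225 = 2 * α * (X * (β + γ)) := by
    rw [hX]
    linear_combination (α ^ 2 - γ ^ 2) * h1 + 9 * h2
  have eXX : (X ^ 2 - 225) ^ 2 = 4 * α ^ 2 * (X * (X - 9) * (X - 25)) := by
    rw [eX, e9, e25, hX]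
    ring
  have hX9 : X - 9 ≠ 0 := by
    rw [e9]
    exact mul_ne_zero (ne_ab h1) (ne_bc h1 h2)
  have hX25 : X - 25 ≠ 0 := by
    rw [e25]
    exact mul_ne_zero (ne_ac h2) (ne_bc h1 h2)
  have ha1 : a = 1 := by
    rcases ha with h | h
    · exact h
    · exfalso
      rw [h, hk] at hau
      refine five_nsq (k / u) ?_
      rw [div_pow, hau]
      push_cast
      field_simp
  subst ha1
  push_cast at hau hw
  rw [one_mul] at hau hw
  rcases hb with rfl | rfl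
  · push_cast at hbv hw
    rw [one_mul] at hbv hw
    refine ⟨u, v, w, by rw [← hau]; exact hbv, by rw [← hau]; exact hw, ?_, hu, ?_⟩
    · rintro rfl
      apply hX25
      rw [hw]
      ring
    · have : (u ^ 4 - 225) ^ 2 = (X ^ 2 - 225) ^ 2 := by rw [hau]; ring
      rw [this, eXX, hbv, hw]
      rw [show X = u ^ 2 from hau]
      ring
  · push_cast at hbv hw
    have hv2 : v ^ 2 = 9 - u ^ 2 := by linarith
    have hw2 : w ^ 2 = 25 - u ^ 2 := by linarith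
    have hX' : X = u ^ 2 := hau
    have hv0 : v ≠ 0 := by
      rintro rfl
      apply hX9
      rw [hbv]
      ring
    have hw0 : w ≠ 0 := by
      rintro rfl
      apply hX25
      rw [hw]
      ring
    refine ⟨15 / u, 3 * w / u, 5 * v / u, ?_, ?_, ?_, ?_, ?_⟩
    · field_simp
      rw [hw2]
      ring
    · field_simp
      rw [hv2]
      ring
    · exact div_ne_zero (mul_ne_zero (by norm_num) hv0) hu
    · exact div_ne_zero (by norm_num) hu
    · have e1 : (u ^ 4 - 225) ^ 2 = 4 * α ^ 2 * (u ^ 2 * v ^ 2 * w ^ 2) := by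
        have : (u ^ 4 - 225) ^ 2 = (X ^ 2 - 225) ^ 2 := by rw [hau]; ring
        rw [this, eXX, hX', hv2, hw2]
        ring
      have e2 : ((15 / u) ^ 4 - 225) ^ 2 = 225 ^ 2 * (u ^ 4 - 225) ^ 2 / u ^ 8 := by
        field_simp
        ring
      rw [e2, e1]
      field_simp
      ring

/-- One of two halves is in the right class. -/
lemma step2 (n2 : S_N2) (n3 : S_N3) (n5 : S_N5) (nP : S_NP) (h1 : α ^ 2 - 9 = β ^ 2)
    (h2 : α ^ 2 - 25 = γ ^ 2) (hγ : γ ≠ 0) :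
    ∃ κ ξ η ζ : ℚ, (κ = α ∨ κ = 5 * β / γ) ∧ ξ ^ 2 - 9 = η ^ 2 ∧ ξ ^ 2 - 25 = ζ ^ 2 ∧ ζ ≠ 0 ∧
      ξ ≠ 0 ∧ (ξ ^ 4 - 225) ^ 2 = (2 * ξ * η * ζ) ^ 2 * κ ^ 2 := by
  obtain ⟨a, b, u, v, w, ha, hb, hu, hau, hbv, hw⟩ := half_class n2 n3 n5 nP h1 h2
  rcases ha with rfl | rfl
  · push_cast at hau
    rw [one_mul] at hau
    obtain ⟨ξ, η, ζ, q1, q2, q3, q4, q5⟩ := step1 n2 n3 n5 nP h1 h2 hau
    exact ⟨α, ξ, η, ζ, Or.inl rfl, q1, q2, q3, q4, q5⟩
  · push_cast at hau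
    set X := (α + β) * (α + γ) with hX
    have hX0 : X ≠ 0 := mul_ne_zero (ne_ab h1) (ne_ac h2)
    have hbg : β + γ - 4 ≠ 0 := by
      intro h
      have e1 : (β + γ) * (β - γ) = 16 := by linear_combination h2 - h1
      have e2 : β + γ = 4 := by linarith
      rw [e2] at e1
      apply hγ
      linarith
    have g1 : (5 * β / γ) ^ 2 - 9 = (4 * α / γ) ^ 2 := by
      field_simp
      linear_combination (-25) * h1 + 9 * h2
    have g2 : (5 * β / γ) ^ 2 - 25 = (20 / γ) ^ 2 := by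
      field_simp
      linear_combination (-25) * h1 + 25 * h2
    have key : 2 * (5 * β + 4 * α) * (X * (β + γ)) = 9 * (X - 5) ^ 2 := by
      rw [hX]
      linear_combination ((-9) * α ^ 2 + (-10) * α * β + (-10) * α * γ + (-10) * β * γ
        + (-1) * γ ^ 2) * h1 + 9 * h2
    have e3 : (β + γ - 4) ^ 2 = 2 * (β - 4) * (β + γ) := by linear_combination h1 - h2
    have e4 : (β + 4) * (β - 4) = γ ^ 2 := by linear_combination h2 - h1
    have hk : (5 * β / γ + 4 * α / γ) * (5 * β / γ + 20 / γ)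
        = (15 * u * (5 - X) / (X * (β + γ - 4))) ^ 2 := by
      have e5 : (15 * u * (5 - X) / (X * (β + γ - 4))) ^ 2
          = 45 * (5 - X) ^ 2 / (X * (β + γ - 4) ^ 2) := by
        rw [div_pow, mul_pow, mul_pow, mul_pow]
        have : u ^ 2 = X / 5 := by rw [hau]; ring
        rw [this]
        field_simp
        ring
      rw [e5, ← add_div, ← add_div, div_mul_div_comm, div_eq_div_iff (mul_ne_zero hγ hγ)
        (mul_ne_zero hX0 (pow_ne_zero 2 hbg)), e3]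
      linear_combination (10 * (5 * β + 4 * α) * X * (β + γ)) * e4 + 5 * γ ^ 2 * key
    obtain ⟨ξ, η, ζ, q1, q2, q3, q4, q5⟩ := step1 n2 n3 n5 nP g1 g2 hk
    exact ⟨5 * β / γ, ξ, η, ζ, Or.inr rfl, q1, q2, q3, q4, q5⟩

end

lemma coprime_sq (t : ℚ) : IsCoprime (t.num ^ 2) ((t.den : ℤ) ^ 2) := by
  have h1 : IsCoprime t.num (t.den : ℤ) := by
    rw [Int.isCoprime_iff_gcd_eq_one]
    have := t.reduced
    rwa [Nat.Coprime] at this
  exact h1.pow

/-- The lower bound for the height of a double. -/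
lemma ht {ξ η ζ κ : ℚ} (h1 : ξ ^ 2 - 9 = η ^ 2) (h2 : ξ ^ 2 - 25 = ζ ^ 2)
    (h : (ξ ^ 4 - 225) ^ 2 = (2 * ξ * η * ζ) ^ 2 * κ ^ 2) :
    ξ.num ^ 4 ≤ 11250 * |κ.num| := by
  set a : ℤ := ξ.num with ha
  set b : ℤ := (ξ.den : ℤ) with hb
  set P : ℤ := κ.num with hP
  set Q : ℤ := (κ.den : ℤ) with hQ
  have hb0 : 0 < b := by
    rw [hb]
    exact_mod_cast ξ.den_pos
  have hQ0 : 0 < Q := by
    rw [hQ]
    exact_mod_cast κ.den_pos
  have ea : (a : ℚ) = ξ * b := by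
    rw [ha, hb]
    push_cast
    exact (Rat.mul_den_eq_num ξ).symm
  have eP : (P : ℚ) = κ * Q := by
    rw [hP, hQ]
    push_cast
    exact (Rat.mul_den_eq_num κ).symm
  have hAB : 25 * b ^ 2 ≤ a ^ 2 := by
    have : (25 : ℚ) * b ^ 2 ≤ (a : ℚ) ^ 2 := by
      rw [ea]
      have : 25 ≤ ξ ^ 2 := by nlinarith [sq_nonneg ζ]
      have hbq : (0 : ℚ) ≤ (b : ℚ) ^ 2 := sq_nonneg _
      nlinarith
    exact_mod_cast this
  obtain ⟨A, hA⟩ : ∃ A, A = a ^ 2 := ⟨_, rfl⟩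
  obtain ⟨B, hB⟩ : ∃ B, B = b ^ 2 := ⟨_, rfl⟩
  have hcop : IsCoprime A B := by
    rw [hA, hB]
    exact coprime_sq ξ
  have hcop2 : IsCoprime (P ^ 2) (Q ^ 2) := coprime_sq κ
  have hB0 : 0 < B := by
    rw [hB]
    positivity
  rw [← hA, ← hB] at hAB
  obtain ⟨F, hF⟩ : ∃ F, F = (A ^ 2 - 225 * B ^ 2) ^ 2 := ⟨_, rfl⟩
  obtain ⟨G, hG⟩ : ∃ G, G = 4 * A * B * (A - 9 * B) * (A - 25 * B) := ⟨_, rfl⟩
  have hFG : F * Q ^ 2 = G * P ^ 2 := by
    have e1 : (ξ ^ 4 - 225) ^ 2 = 4 * ξ ^ 2 * (ξ ^ 2 - 9) * (ξ ^ 2 - 25) * κ ^ 2 := by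
      rw [h, h1, h2]
      ring
    have : ((F * Q ^ 2 : ℤ) : ℚ) = ((G * P ^ 2 : ℤ) : ℚ) := by
      rw [hF, hG, hA, hB]
      push_cast
      rw [ea, eP]
      linear_combination ((b : ℚ) ^ 8 * Q ^ 2) * e1
    exact_mod_cast this
  have hF0 : 0 < F := by
    have : 0 < A ^ 2 - 225 * B ^ 2 := by nlinarith
    rw [hF]
    positivity
  have hP0 : P ≠ 0 := by
    intro h0
    rw [h0] at hFG
    have : 0 < F * Q ^ 2 := by positivity
    rw [hFG] at this
    norm_num at this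
  obtain ⟨t, ht⟩ : P ^ 2 ∣ F := by
    refine hcop2.dvd_of_dvd_mul_right ?_
    rw [hFG]
    exact Dvd.intro_left _ rfl
  have hGt : G = t * Q ^ 2 := by
    have hP2 : P ^ 2 ≠ 0 := pow_ne_zero 2 hP0
    apply mul_right_cancel₀ hP2
    rw [← hFG, ht]
    ring
  have ht0 : 0 < t := by
    have : 0 < P ^ 2 := by positivity
    rw [ht] at hF0
    exact (mul_pos_iff_of_pos_left this).mp hF0
  have d1 : t ∣ 51840000 * B ^ 7 := by
    have e : 51840000 * B ^ 7 = F * (1024 * B ^ 3 + 272 * A * B ^ 2 - 12 * A ^ 2 * B) +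
        G * (-15300 * B ^ 3 - 1125 * A * B ^ 2 + 34 * A ^ 2 * B + 3 * A ^ 3) := by
      rw [hF, hG]
      ring
    rw [e]
    refine dvd_add (Dvd.dvd.mul_right ?_ _) (Dvd.dvd.mul_right ?_ _)
    · rw [ht]
      exact Dvd.intro_left _ rfl
    · rw [hGt]
      exact Dvd.intro _ rfl
  have d2 : t ∣ 51840000 * A ^ 7 := by
    have e : 51840000 * A ^ 7 = 50625 * (F * (-607500 * A * B ^ 2 + 61200 * A ^ 2 * B +
        1024 * A ^ 3) + G * (34171875 * B ^ 3 + 1721250 * A * B ^ 2 - 253125 * A ^ 2 * B -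
        15300 * A ^ 3)) := by
      rw [hF, hG]
      ring
    rw [e]
    refine Dvd.dvd.mul_left ?_ _
    refine dvd_add (Dvd.dvd.mul_right ?_ _) (Dvd.dvd.mul_right ?_ _)
    · rw [ht]
      exact Dvd.intro_left _ rfl
    · rw [hGt]
      exact Dvd.intro _ rfl
  have d3 : t ∣ 51840000 := by
    obtain ⟨u, v, huv⟩ := hcop.pow (m := 7) (n := 7)
    have e : (51840000 : ℤ) = u * (51840000 * A ^ 7) + v * (51840000 * B ^ 7) := by
      linear_combination (-51840000) * huv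
    rw [e]
    exact dvd_add (Dvd.dvd.mul_left d2 _) (Dvd.dvd.mul_left d1 _)
  have ht1 : t ≤ 51840000 := Int.le_of_dvd (by norm_num) d3
  have hFP : F ≤ 51840000 * P ^ 2 := by
    rw [ht]
    nlinarith [sq_nonneg P]
  have h16 : 16 * A ^ 2 ≤ 25 * (A ^ 2 - 225 * B ^ 2) := by nlinarith
  have h17 : (16 * A ^ 2) ^ 2 ≤ 625 * F := by
    rw [hF]
    have : (16 * A ^ 2) ^ 2 ≤ (25 * (A ^ 2 - 225 * B ^ 2)) ^ 2 :=
      pow_le_pow_left₀ (by positivity) h16 2
    linarith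
  have h18 : (A ^ 2) ^ 2 ≤ (11250 * P) ^ 2 := by nlinarith
  have h19 := sq_le_sq.mp h18
  have hAA : A ^ 2 = a ^ 4 := by rw [hA]; ring
  rw [hAA, abs_mul, abs_of_nonneg (by positivity : (0 : ℤ) ≤ a ^ 4)] at h19
  simpa using h19

lemma num_le {α β γ : ℚ} (h1 : α ^ 2 - 9 = β ^ 2) (h2 : α ^ 2 - 25 = γ ^ 2) (hγ : γ ≠ 0) {κ : ℚ}
    (hκ : κ = α ∨ κ = 5 * β / γ) : |κ.num| ≤ 5 * |α.num| := by
  rcases hκ with rfl | h
  · have := abs_nonneg κ.num
    linarith
  · set p : ℤ := α.num with hp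
    set q : ℤ := (α.den : ℤ) with hq
    set P : ℤ := κ.num with hP
    set Q : ℤ := (κ.den : ℤ) with hQ
    have hq0 : 0 < q := by
      rw [hq]
      exact_mod_cast α.den_pos
    have hQ0 : 0 < Q := by
      rw [hQ]
      exact_mod_cast κ.den_pos
    have ep : (p : ℚ) = α * q := by
      rw [hp, hq]
      push_cast
      exact (Rat.mul_den_eq_num α).symm
    have eP : (P : ℚ) = κ * Q := by
      rw [hP, hQ]
      push_cast
      exact (Rat.mul_den_eq_num κ).symm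
    have hκ2 : κ ^ 2 * (α ^ 2 - 25) = 25 * (α ^ 2 - 9) := by
      rw [h1, h2, h]
      field_simp
      ring
    have e1 : Q ^ 2 * (25 * (p ^ 2 - 9 * q ^ 2)) = P ^ 2 * (p ^ 2 - 25 * q ^ 2) := by
      have : ((Q ^ 2 * (25 * (p ^ 2 - 9 * q ^ 2)) : ℤ) : ℚ)
          = ((P ^ 2 * (p ^ 2 - 25 * q ^ 2) : ℤ) : ℚ) := by
        push_cast
        rw [ep, eP]
        linear_combination (-(Q : ℚ) ^ 2 * q ^ 2) * hκ2
      exact_mod_cast this
    have hdvd : P ^ 2 ∣ 25 * (p ^ 2 - 9 * q ^ 2) := by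
      refine (coprime_sq κ).dvd_of_dvd_mul_left ?_
      rw [e1]
      exact Dvd.intro _ rfl
    have hpq : 25 * q ^ 2 ≤ p ^ 2 := by
      have : (25 : ℚ) * q ^ 2 ≤ (p : ℚ) ^ 2 := by
        rw [ep]
        have : 25 ≤ α ^ 2 := by nlinarith [sq_nonneg γ]
        have hbq : (0 : ℚ) ≤ (q : ℚ) ^ 2 := sq_nonneg _
        nlinarith
      exact_mod_cast this
    have hpos : 0 < 25 * (p ^ 2 - 9 * q ^ 2) := by
      have : 0 < q ^ 2 := by positivity
      linarith
    have hle := Int.le_of_dvd hpos hdvd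
    have h3 : P ^ 2 ≤ (5 * p) ^ 2 := by nlinarith [sq_nonneg q]
    have h4 := sq_le_sq.mp h3
    rw [abs_mul] at h4
    simpa using h4

lemma fin_check : ∀ m < 39, ∀ b < 8, 0 < b → 25 * (b * b) < m * m →
    ¬ (Nat.sqrt (m * m - 9 * (b * b)) * Nat.sqrt (m * m - 9 * (b * b)) = m * m - 9 * (b * b) ∧
      Nat.sqrt (m * m - 25 * (b * b)) * Nat.sqrt (m * m - 25 * (b * b)) =
        m * m - 25 * (b * b)) := by
  decide +kernel

lemma sq_of_rat {ξ η : ℚ} {c : ℕ} (h : ξ ^ 2 - c = η ^ 2)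
    (hle : c * (ξ.den * ξ.den) ≤ ξ.num.natAbs * ξ.num.natAbs) :
    IsSquare (ξ.num.natAbs * ξ.num.natAbs - c * (ξ.den * ξ.den)) := by
  have h1 : IsSquare (((ξ.num.natAbs * ξ.num.natAbs - c * (ξ.den * ξ.den) : ℕ) : ℕ) : ℚ) := by
    refine ⟨η * ξ.den, ?_⟩
    have e1 : ((ξ.num.natAbs * ξ.num.natAbs : ℕ) : ℚ) = (ξ * ξ.den) * (ξ * ξ.den) := by
      rw [Rat.mul_den_eq_num]
      have : ((ξ.num.natAbs * ξ.num.natAbs : ℕ) : ℤ) = ξ.num * ξ.num := by
        push_cast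
        exact abs_mul_abs_self _
      have h3 : (((ξ.num.natAbs * ξ.num.natAbs : ℕ) : ℤ) : ℚ) = ((ξ.num * ξ.num : ℤ) : ℚ) := by
        rw [this]
      rw [Int.cast_natCast] at h3
      rw [h3]
      push_cast
      ring
    rw [Nat.cast_sub hle, e1]
    push_cast
    linear_combination ((ξ.den : ℚ) ^ 2) * h
  exact Rat.isSquare_natCast_iff.mp h1

/-- There are no nontrivial solutions. -/
theorem no_sol (n2 : S_N2) (n3 : S_N3) (n5 : S_N5) (nP : S_NP) (N : ℕ) : ∀ α β γ : ℚ,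
    α ^ 2 - 9 = β ^ 2 → α ^ 2 - 25 = γ ^ 2 → γ ≠ 0 → α.num.natAbs = N → False := by
  induction N using Nat.strong_induction_on with
  | _ N ih =>
    intro α β γ h1 h2 hγ hN
    obtain ⟨κ, ξ, η, ζ, hκ, q1, q2, q3, q4, q5⟩ := step2 n2 n3 n5 nP h1 h2 hγ
    have hb := ht q1 q2 q5
    have hn := num_le h1 h2 hγ hκ
    by_cases hlt : ξ.num.natAbs < N
    · exact ih _ hlt ξ η ζ q1 q2 q3 rfl
    · push Not at hlt
      set m : ℕ := ξ.num.natAbs with hm
      have hm4 : (m : ℤ) ^ 4 ≤ 56250 * m := by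
        have e1 : (m : ℤ) ^ 4 = ξ.num ^ 4 := by
          rw [hm, Int.natCast_natAbs]
          exact Even.pow_abs (by decide) _
        have e2 : |α.num| ≤ m := by
          rw [← Int.natCast_natAbs, hN]
          exact_mod_cast hlt
        rw [e1]
        linarith
      have hm0 : 0 < m := by
        rw [hm, Int.natAbs_pos]
        exact Rat.num_ne_zero.mpr q4
      have hm38 : m < 39 := by
        by_contra hge
        push Not at hge
        have hge' : (39 : ℤ) ≤ m := by exact_mod_cast hge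
        have e3 : (39 : ℤ) ^ 3 ≤ (m : ℤ) ^ 3 := pow_le_pow_left₀ (by norm_num) hge' 3
        have e4 : (m : ℤ) ^ 3 * m ≤ 56250 * m := by
          rw [← pow_succ]
          exact hm4
        have e5 := le_of_mul_le_mul_right e4 (by exact_mod_cast hm0)
        norm_num at e3
        linarith
      have hb0 : 0 < ξ.den := ξ.den_pos
      have hlt25 : 25 * (ξ.den * ξ.den) < m * m := by
        have e1 : 25 < ξ ^ 2 := by
          have : 0 < ζ ^ 2 := by positivity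
          linarith
        have e2 : (25 : ℚ) * (ξ.den * ξ.den) < (ξ * ξ.den) * (ξ * ξ.den) := by
          have : (0 : ℚ) < (ξ.den : ℚ) * ξ.den := by positivity
          nlinarith
        rw [Rat.mul_den_eq_num] at e2
        have e3 : ((m * m : ℕ) : ℤ) = ξ.num * ξ.num := by
          rw [hm]
          push_cast
          exact abs_mul_abs_self _
        have e4 : ((25 * (ξ.den * ξ.den) : ℕ) : ℤ) < ξ.num * ξ.num := by
          push_cast
          exact_mod_cast e2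
        rw [← e3] at e4
        exact_mod_cast e4
      have hb8 : ξ.den < 8 := by
        by_contra hge
        push Not at hge
        nlinarith
      have s9 := sq_of_rat (c := 9) (by exact_mod_cast q1) (by
        rw [← hm]
        nlinarith)
      have s25 := sq_of_rat (c := 25) (by exact_mod_cast q2) (by
        rw [← hm]
        exact hlt25.le)
      rw [← hm] at s9 s25
      refine fin_check m hm38 ξ.den hb8 hb0 hlt25 ⟨?_, ?_⟩
      · obtain ⟨r, hr⟩ := s9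
        rw [hr, Nat.sqrt_eq]
      · obtain ⟨r, hr⟩ := s25
        rw [hr, Nat.sqrt_eq]

theorem t_FQ (n2 : S_N2) (n3 : S_N3) (n5 : S_N5) (nP : S_NP) : S_FQ := by
  intro x y h
  by_contra hcon
  push Not at hcon
  obtain ⟨x0, x9, x25, x5, x45⟩ := hcon
  have y0 : y ≠ 0 := by
    rintro rfl
    have h1 : x * (x - 9) * (x - 25) = 0 := by rw [← h]; ring
    rcases mul_eq_zero.mp h1 with h2 | h2
    · rcases mul_eq_zero.mp h2 with h3 | h3
      · exact x0 h3
      · exact x9 (by linarith)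
    · exact x25 (by linarith)
  refine no_sol n2 n3 n5 nP _ ((x ^ 2 - 225) / (2 * y)) ((x ^ 2 - 18 * x + 225) / (2 * y))
    ((x - 5) * (x - 45) / (2 * y)) ?_ ?_ ?_ rfl
  · field_simp
    linear_combination (-36) * h
  · field_simp
    linear_combination (-100) * h
  · refine div_ne_zero (mul_ne_zero (sub_ne_zero.mpr x5) (sub_ne_zero.mpr x45))
      (mul_ne_zero two_ne_zero y0)

end Pool.Agent.Run7.h437.XK
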